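import Pool.Agent.helper90.IV.Spec

set_option autoImplicit false

namespace Pool.Agent.helper31.IV

open Pool.Agent.helper23.TH Pool.Agent.KS Pool.Agent.IV

open Classical

theorem LC_mkR {ρ ι ε : Type} [Fintype ρ] [Fintype ι] [Fintype ε] (ed : ε → (ρ ⊕ ι) × (ρ ⊕ ι))
    (hi : Function.Injective fun e => s((ed e).1, (ed e).2)) (hl : ∀ e, (ed e).1 ≠ (ed e).2)
    (c : ρ ⊕ ι → Bool) (hc : ∀ e, c (ed e).1 ≠ c (ed e).2) (k : ℕ) :
    ((mkR ed hi hl).pw k).Colorable 2 := by
  let f : Fin (mkR ed hi hl).r ⊕ (Fin k × Fin (mkR ed hi hl).v) → Bool := fun a =>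
    match a with
    | .inl x => c (.inl ((Fintype.equivFin ρ).symm x))
    | .inr y => c (.inr ((Fintype.equivFin ι).symm y.2))
  have hf : ∀ (t : Fin k) (x : ρ ⊕ ι),
      f ((mkR ed hi hl).lift t (Sum.map (Fintype.equivFin ρ) (Fintype.equivFin ι) x)) = c x := by
    intro t x
    rcases x with x | x
    · change c (.inl ((Fintype.equivFin ρ).symm (Fintype.equivFin ρ x))) = c (.inl x)
      rw [Equiv.symm_apply_apply]
    · change c (.inr ((Fintype.equivFin ι).symm (Fintype.equivFin ι x))) = c (.inr x)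
      rw [Equiv.symm_apply_apply]
  have hadj : ∀ {a b}, ((mkR ed hi hl).pw k).Adj a b → f a ≠ f b := by
    rintro a b ⟨t, i, ⟨ha, hb⟩ | ⟨ha, hb⟩⟩
    · have h1 : f a = c (ed ((Fintype.equivFin ε).symm i)).1 := by rw [ha]; exact hf t _
      have h2 : f b = c (ed ((Fintype.equivFin ε).symm i)).2 := by rw [hb]; exact hf t _
      rw [h1, h2]; exact hc _
    · have h1 : f b = c (ed ((Fintype.equivFin ε).symm i)).1 := by rw [ha]; exact hf t _
      have h2 : f a = c (ed ((Fintype.equivFin ε).symm i)).2 := by rw [hb]; exact hf t _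
      rw [h1, h2]; exact (hc _).symm
  exact (SimpleGraph.Coloring.mk f hadj).colorable

/-- the two classes: slots and inner vertices against middles and link roots -/
def LC_col {I : Type} (T : Tr I) : (T.R ⊕ Bool) ⊕ (I ⊕ T.Ed) → Bool
  | .inl (.inl _) => true
  | .inl (.inr _) => false
  | .inr (.inl _) => true
  | .inr (.inr _) => false

theorem LC : LC_stmt := by
  intro I _ T hub k
  unfold LS
  refine LC_mkR _ _ _ (LC_col T) ?_ k
  rintro (((e | r) | (e | r)) | i) <;> simp [lsEd, LC_col]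

end Pool.Agent.helper31.IV
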